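import Mathlib

open MeasureTheory Set Filter Topology
open scoped unitInterval ENNReal

namespace Pool.Agent.Results.MP_2d7e0f_pr.SupAttained

/-- The `C`-volume of the box `[u, v]`: the sum over all subsets `S` of the coordinates
(the set of the indices `k` with `ε_k = 1`) of `(-1)^(n - |S|) C(w_S)`, where `w_S` has
coordinates `v_k` for `k ∈ S` and `u_k` for `k ∉ S`. -/
noncomputable def boxVolume {n : ℕ} (C : (Fin n → I) → I) (u v : Fin n → I) : ℝ :=
  ∑ S : Finset (Fin n), (-1 : ℝ) ^ (n - S.card) *
    ((C (fun k => if k ∈ S then v k else u k) : I) : ℝ)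

/-- An `n`-copula. -/
structure IsCopula {n : ℕ} (C : (Fin n → I) → I) : Prop where
  /-- `C x = 0` whenever some coordinate is `0` -/
  grounded : ∀ x : Fin n → I, (∃ k, x k = 0) → C x = 0
  /-- `C x = x_k` whenever every coordinate other than the `k`-th equals `1` -/
  margin : ∀ (x : Fin n → I) (k : Fin n), (∀ j, j ≠ k → x j = 1) → C x = x k
  /-- every box has nonnegative `C`-volume -/
  nonneg : ∀ u v : Fin n → I, (∀ k, u k ≤ v k) → 0 ≤ boxVolume C u v

/-- The lower Frechet bound `W^{n-1}(x) = max (x_1 + ... + x_n - n + 1, 0)`. -/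
noncomputable def W {n : ℕ} (x : Fin n → I) : ℝ :=
  max ((∑ k, (x k : ℝ)) - n + 1) 0

/-- `s_n`, the supremum of the Lebesgue measures of the measurable sets `A ⊆ I^n` on which some
`n`-copula agrees with `W^{n-1}`. -/
noncomputable def s (n : ℕ) : ℝ≥0∞ :=
  ⨆ A ∈ {A : Set (Fin n → I) | MeasurableSet A ∧
      ∃ C : (Fin n → I) → I, IsCopula C ∧ ∀ x ∈ A, (C x : ℝ) = W x},
    (volume : Measure (Fin n → I)) A

/-! ### Basic facts on copulas -/

section basic

variable {n : ℕ}

lemma term_zero {C : (Fin n → I) → I} (hC : IsCopula C) (u v : Fin n → I) (S : Finset (Fin n))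
    (k : Fin n) (hk : k ∉ S) (h0 : u k = 0) :
    ((C (fun k => if k ∈ S then v k else u k) : I) : ℝ) = 0 := by
  rw [hC.grounded _ ⟨k, by simp [hk, h0]⟩]; simp

/-- Two-point difference: a copula is monotone in each coordinate. -/
lemma mono_coord {C : (Fin n → I) → I} (hC : IsCopula C) (x : Fin n → I) (k : Fin n) (b : I)
    (hb : x k ≤ b) : (C x : ℝ) ≤ C (Function.update x k b) := by
  have h := hC.nonneg (fun j => if j = k then x k else 0) (Function.update x k b) (by
    intro j
    by_cases hj : j = k
    · subst hj; simpa using hb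
    · simp [hj])
  unfold boxVolume at h
  have hne : (Finset.univ : Finset (Fin n)) ≠ Finset.univ.erase k := by
    intro h'
    have : k ∈ (Finset.univ : Finset (Fin n)).erase k := h' ▸ Finset.mem_univ k
    simp at this
  rw [Fintype.sum_eq_add Finset.univ (Finset.univ.erase k) hne] at h
  · have hn : 1 ≤ n := by have := k.2; omega
    rw [Finset.card_erase_of_mem (Finset.mem_univ k)] at h
    simp only [Finset.card_univ, Fintype.card_fin, Nat.sub_self, pow_zero, one_mul,
      Finset.mem_univ, if_true] at h
    have e1 : n - (n - 1) = 1 := by omega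
    rw [e1] at h
    have e2 : (fun j => if j ∈ (Finset.univ : Finset (Fin n)).erase k then
        Function.update x k b j else if j = k then x k else 0) = x := by
      funext j
      by_cases hj : j = k
      · subst hj; simp
      · simp [hj]
    rw [e2] at h
    linarith
  · intro S hS
    have : ∃ j, j ∉ S ∧ j ≠ k := by
      by_contra hcon
      push Not at hcon
      by_cases hkS : k ∈ S
      · apply hS.1
        ext j
        simp only [Finset.mem_univ, iff_true]
        by_contra hj
        exact hj ((hcon j hj) ▸ hkS)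
      · apply hS.2
        ext j
        simp only [Finset.mem_erase, Finset.mem_univ, and_true]
        constructor
        · intro hj hjk; exact hkS (hjk ▸ hj)
        · intro hj
          by_contra hjS
          exact hj (hcon j hjS)
    obtain ⟨j, hjS, hjk⟩ := this
    rw [term_zero hC _ _ S j hjS (by simp [hjk]), mul_zero]

/-- The increment of a copula in coordinate `k` is nondecreasing in each other coordinate. -/
lemma incr_coord {C : (Fin n → I) → I} (hC : IsCopula C) (x : Fin n → I) (k j : Fin n)
    (hkj : j ≠ k) (b c : I) (hb : x k ≤ b) (hc : x j ≤ c) :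
    (C (Function.update x k b) : ℝ) - C x ≤
      C (Function.update (Function.update x j c) k b) - C (Function.update x j c) := by
  set u : Fin n → I := fun l => if l = k then x k else if l = j then x j else 0 with hu
  set v : Fin n → I := Function.update (Function.update x j c) k b with hv
  have h := hC.nonneg u v (by
    intro l
    simp only [hu, hv]
    by_cases hl : l = k
    · subst hl; simpa using hb
    · by_cases hl' : l = j
      · subst hl'; simpa [hl] using hc
      · simp [hl, hl'])
  unfold boxVolume at h
  have hn : 2 ≤ n := by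
    have h1 := k.2
    have h2 := j.2
    have h3 : (j : ℕ) ≠ k := fun h' => hkj (Fin.ext h')
    omega
  set T : Finset (Finset (Fin n)) :=
    {Finset.univ, Finset.univ.erase k, Finset.univ.erase j, (Finset.univ.erase j).erase k} with hT
  have hsub : ∑ S : Finset (Fin n), (-1 : ℝ) ^ (n - S.card) *
      ((C (fun k => if k ∈ S then v k else u k) : I) : ℝ) =
      ∑ S ∈ T, (-1 : ℝ) ^ (n - S.card) *
      ((C (fun k => if k ∈ S then v k else u k) : I) : ℝ) := by
    symm
    apply Finset.sum_subset (Finset.subset_univ _)
    intro S _ hS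
    have : ∃ l, l ∉ S ∧ l ≠ k ∧ l ≠ j := by
      by_contra hcon
      push Not at hcon
      apply hS
      simp only [hT, Finset.mem_insert, Finset.mem_singleton]
      by_cases hkS : k ∈ S
      · by_cases hjS : j ∈ S
        · left
          ext l
          simp only [Finset.mem_univ, iff_true]
          by_contra hl
          by_cases hlk : l = k
          · exact hl (hlk ▸ hkS)
          · exact hl ((hcon l hl hlk) ▸ hjS)
        · right; right; left
          ext l
          simp only [Finset.mem_erase, Finset.mem_univ, and_true]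
          constructor
          · intro hl hlj; exact hjS (hlj ▸ hl)
          · intro hl
            by_contra hlS
            by_cases hlk : l = k
            · exact hlS (hlk ▸ hkS)
            · exact hl (hcon l hlS hlk)
      · by_cases hjS : j ∈ S
        · right; left
          ext l
          simp only [Finset.mem_erase, Finset.mem_univ, and_true]
          constructor
          · intro hl hlk; exact hkS (hlk ▸ hl)
          · intro hl
            by_contra hlS
            exact hlS ((hcon l hlS hl) ▸ hjS)
        · right; right; right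
          ext l
          simp only [Finset.mem_erase, Finset.mem_univ, and_true]
          constructor
          · intro hl
            exact ⟨fun hlk => hkS (hlk ▸ hl), fun hlj => hjS (hlj ▸ hl)⟩
          · intro hl
            by_contra hlS
            exact hl.2 (hcon l hlS hl.1)
    obtain ⟨l, hlS, hlk, hlj⟩ := this
    rw [term_zero hC _ _ S l hlS (by simp [hu, hlk, hlj]), mul_zero]
  rw [hsub] at h
  have ne1 : (Finset.univ : Finset (Fin n)) ∉ ({Finset.univ.erase k, Finset.univ.erase j,
      (Finset.univ.erase j).erase k} : Finset (Finset (Fin n))) := by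
    simp only [Finset.mem_insert, Finset.mem_singleton, not_or]
    refine ⟨fun h' => ?_, fun h' => ?_, fun h' => ?_⟩
    · have := h' ▸ Finset.mem_univ k; simp at this
    · have := h' ▸ Finset.mem_univ j; simp at this
    · have := h' ▸ Finset.mem_univ k; simp at this
  have ne2 : (Finset.univ : Finset (Fin n)).erase k ∉ ({Finset.univ.erase j,
      (Finset.univ.erase j).erase k} : Finset (Finset (Fin n))) := by
    simp only [Finset.mem_insert, Finset.mem_singleton, not_or]
    have hj : j ∈ (Finset.univ : Finset (Fin n)).erase k := by simp [hkj]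
    refine ⟨fun h' => ?_, fun h' => ?_⟩
    · have := h' ▸ hj; simp at this
    · have := h' ▸ hj; simp at this
  have ne3 : (Finset.univ : Finset (Fin n)).erase j ∉ ({(Finset.univ.erase j).erase k} :
      Finset (Finset (Fin n))) := by
    simp only [Finset.mem_singleton]
    have hk : k ∈ (Finset.univ : Finset (Fin n)).erase j := by simp [hkj.symm]
    intro h'
    have := h' ▸ hk; simp at this
  rw [hT, Finset.sum_insert ne1, Finset.sum_insert ne2, Finset.sum_insert ne3,
    Finset.sum_singleton] at h
  have hkE : k ∈ (Finset.univ : Finset (Fin n)).erase j := by simp [hkj.symm]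
  rw [Finset.card_erase_of_mem (Finset.mem_univ k), Finset.card_erase_of_mem hkE,
    Finset.card_erase_of_mem (Finset.mem_univ j)] at h
  simp only [Finset.card_univ, Fintype.card_fin, Nat.sub_self, pow_zero, one_mul,
    Finset.mem_univ, if_true] at h
  have e1 : n - (n - 1) = 1 := by omega
  have e2 : n - (n - 1 - 1) = 2 := by omega
  rw [e1, e2] at h
  have f1 : (fun l => if l ∈ (Finset.univ : Finset (Fin n)).erase k then v l else u l) =
      Function.update x j c := by
    funext l
    by_cases hl : l = k
    · subst hl; simp [hu, hkj.symm]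
    · by_cases hl' : l = j
      · subst hl'; simp [hv, hl]
      · simp [hv, hl, hl']
  have f2 : (fun l => if l ∈ (Finset.univ : Finset (Fin n)).erase j then v l else u l) =
      Function.update x k b := by
    funext l
    by_cases hl : l = k
    · subst hl; simp [hv, hkj.symm]
    · by_cases hl' : l = j
      · subst hl'; simp [hu, hl]
      · simp [hv, hl, hl']
  have f3 : (fun l => if l ∈ ((Finset.univ : Finset (Fin n)).erase j).erase k then v l else u l) =
      x := by
    funext l
    by_cases hl : l = k
    · subst hl; simp [hu]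
    · by_cases hl' : l = j
      · subst hl'; simp [hu, hl]
      · simp [hv, hl, hl']
  rw [f1, f2, f3] at h
  have : (-1 : ℝ) ^ 2 = 1 := by norm_num
  rw [this] at h
  linarith

/-- The increment in coordinate `k` is at most the increment of the argument. -/
lemma incr_le {C : (Fin n → I) → I} (hC : IsCopula C) (k : Fin n) (b : I) :
    ∀ (s : Finset (Fin n)), k ∉ s → ∀ x : Fin n → I, x k ≤ b → (∀ j, j ∉ s → j ≠ k → x j = 1) →
      (C (Function.update x k b) : ℝ) - C x ≤ b - x k := by
  intro s
  induction s using Finset.induction_on with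
  | empty =>
    intro _ x hb hx
    have h1 : C x = x k := hC.margin x k (fun j hj => hx j (by simp) hj)
    have h2 : C (Function.update x k b) = b := by
      have := hC.margin (Function.update x k b) k (fun j hj => by simp [hj, hx j (by simp) hj])
      simpa using this
    rw [h1, h2]
  | insert j s hjs ih =>
    intro hk x hb hx
    simp only [Finset.mem_insert, not_or] at hk
    have hjk : j ≠ k := fun h => hk.1 h.symm
    have h1 := incr_coord hC x k j hjk b 1 hb (unitInterval.le_one')
    have h2 := ih hk.2 (Function.update x j 1) (by simpa [hjk.symm] using hb) (by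
      intro l hl hlk
      by_cases hlj : l = j
      · subst hlj; simp
      · simp only [ne_eq, hlj, not_false_eq_true, Function.update_of_ne]
        exact hx l (by simp [hl, hlj]) hlk)
    have h3 : (Function.update x j 1) k = x k := by simp [hjk.symm]
    rw [h3] at h2
    linarith

lemma abs_coord {C : (Fin n → I) → I} (hC : IsCopula C) (x : Fin n → I) (k : Fin n) (b : I) :
    |(C (Function.update x k b) : ℝ) - C x| ≤ |(b : ℝ) - x k| := by
  rcases le_total (x k) b with hb | hb
  · have h1 := mono_coord hC x k b hb
    have h2 := incr_le hC k b (Finset.univ.erase k) (by simp) x hb (by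
      intro j hj hjk; simp [hjk] at hj)
    have h3 : (x k : ℝ) ≤ b := hb
    rw [abs_of_nonneg (by linarith), abs_of_nonneg (by linarith)]
    exact h2
  · set y := Function.update x k b with hy
    have hxy : x = Function.update y k (x k) := by
      simp [hy]
    have hyk : y k = b := by simp [hy]
    have h1 := mono_coord hC y k (x k) (by rw [hyk]; exact hb)
    have h2 := incr_le hC k (x k) (Finset.univ.erase k) (by simp) y (by rw [hyk]; exact hb) (by
      intro j hj hjk; simp [hjk] at hj)
    rw [← hxy] at h1 h2
    rw [hyk] at h2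
    have h3 : (b : ℝ) ≤ x k := hb
    rw [abs_of_nonpos (by linarith), abs_of_nonpos (by linarith)]
    linarith

/-- Copulas are `1`-Lipschitz for the sum norm. -/
lemma abs_sub_le_sum {C : (Fin n → I) → I} (hC : IsCopula C) (x y : Fin n → I) :
    |(C x : ℝ) - C y| ≤ ∑ k, |(x k : ℝ) - y k| := by
  have key : ∀ (s : Finset (Fin n)) (z : Fin n → I), (∀ k, z k = if k ∈ s then x k else y k) →
      |(C z : ℝ) - C y| ≤ ∑ k ∈ s, |(x k : ℝ) - y k| := by
    intro s
    induction s using Finset.induction_on with
    | empty =>
      intro z hz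
      have : z = y := by funext k; simpa using hz k
      rw [this]; simp
    | insert j s hjs ih =>
      intro z hz
      have h1 := ih (Function.update z j (y j)) (by
        intro k
        by_cases hk : k = j
        · subst hk; simp [hjs]
        · simp only [ne_eq, hk, not_false_eq_true, Function.update_of_ne]
          rw [hz k]
          simp [hk])
      have h2 := abs_coord hC (Function.update z j (y j)) j (z j)
      have h3 : Function.update (Function.update z j (y j)) j (z j) = z := by simp
      rw [h3] at h2
      have h4 : (Function.update z j (y j)) j = y j := by simp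
      rw [h4] at h2
      have h5 : z j = x j := by rw [hz j]; simp
      rw [Finset.sum_insert hjs]
      rw [← h5]
      calc |(C z : ℝ) - C y| ≤ |(C z : ℝ) - C (Function.update z j (y j))| +
            |(C (Function.update z j (y j)) : ℝ) - C y| := by
            have := _root_.abs_sub_le (C z : ℝ) (C (Function.update z j (y j)) : ℝ) (C y : ℝ)
            exact this
        _ ≤ _ := add_le_add h2 h1
  have := key Finset.univ x (by intro k; simp)
  simpa using this

lemma abs_sub_le_dist {C : (Fin n → I) → I} (hC : IsCopula C) (x y : Fin n → I) :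
    |(C x : ℝ) - C y| ≤ n * dist x y := by
  refine (abs_sub_le_sum hC x y).trans ?_
  calc ∑ k, |(x k : ℝ) - y k| ≤ ∑ k : Fin n, dist x y := by
        apply Finset.sum_le_sum
        intro k _
        have := dist_le_pi_dist x y k
        rwa [Subtype.dist_eq, Real.dist_eq] at this
    _ = n * dist x y := by simp

lemma continuous_copula {C : (Fin n → I) → I} (hC : IsCopula C) :
    Continuous (fun x => (C x : ℝ)) := by
  have : LipschitzWith n (fun x => (C x : ℝ)) := by
    apply LipschitzWith.of_dist_le_mul
    intro x y
    rw [Real.dist_eq]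
    simpa using abs_sub_le_dist hC x y
  exact this.continuous

lemma continuous_W : Continuous (W : (Fin n → I) → ℝ) := by
  unfold W; fun_prop

end basic

/-! ### Compactness of the set of copulas and upper semicontinuity -/

section compactness

variable {n : ℕ}

lemma isClosed_copulas : IsClosed {C : (Fin n → I) → I | IsCopula C} := by
  have : {C : (Fin n → I) → I | IsCopula C} =
      (⋂ x : Fin n → I, ⋂ (_ : ∃ k, x k = 0), {C | C x = 0}) ∩
      (⋂ x : Fin n → I, ⋂ k : Fin n, ⋂ (_ : ∀ j, j ≠ k → x j = 1), {C | C x = x k}) ∩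
      (⋂ u : Fin n → I, ⋂ v : Fin n → I, ⋂ (_ : ∀ k, u k ≤ v k), {C | 0 ≤ boxVolume C u v}) := by
    ext C
    simp only [mem_ofPred_eq, mem_inter_iff, mem_iInter]
    constructor
    · intro h; exact ⟨⟨h.grounded, h.margin⟩, h.nonneg⟩
    · rintro ⟨⟨h1, h2⟩, h3⟩; exact ⟨h1, h2, h3⟩
  rw [this]
  refine ((isClosed_iInter fun x => isClosed_iInter fun _ => ?_).inter
    (isClosed_iInter fun x => isClosed_iInter fun k => isClosed_iInter fun _ => ?_)).inter
    (isClosed_iInter fun u => isClosed_iInter fun v => isClosed_iInter fun _ => ?_)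
  · exact isClosed_eq (continuous_apply x) continuous_const
  · exact isClosed_eq (continuous_apply x) continuous_const
  · refine isClosed_le continuous_const ?_
    unfold boxVolume
    refine continuous_finsetSum _ fun S _ => ?_
    refine continuous_const.mul ?_
    exact continuous_subtype_val.comp (continuous_apply _)

lemma isCompact_copulas : IsCompact {C : (Fin n → I) → I | IsCopula C} :=
  isClosed_copulas.isCompact

/-- On the set of copulas pointwise convergence is uniform convergence. -/
lemma eventually_close {C₀ : (Fin n → I) → I} (hC₀ : IsCopula C₀) {ε : ℝ} (hε : 0 < ε) :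
    ∀ᶠ C in 𝓝[{C : (Fin n → I) → I | IsCopula C}] C₀, ∀ x, |(C x : ℝ) - C₀ x| ≤ ε := by
  have htb : TotallyBounded (univ : Set (Fin n → I)) := isCompact_univ.totallyBounded
  obtain ⟨t, htf, ht⟩ := Metric.totallyBounded_iff.1 htb (ε / (3 * (n + 1))) (by positivity)
  have hev : ∀ᶠ C : (Fin n → I) → I in 𝓝 C₀, ∀ y ∈ t, |(C y : ℝ) - C₀ y| < ε / 3 := by
    rw [Filter.eventually_all_finite htf]
    intro y _
    have hcont : Continuous (fun C : (Fin n → I) → I => |(C y : ℝ) - C₀ y|) :=
      ((continuous_subtype_val.comp (continuous_apply y)).sub continuous_const).abs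
    have : (fun C : (Fin n → I) → I => |(C y : ℝ) - C₀ y|) C₀ < ε / 3 := by
      simp only [sub_self, abs_zero]; positivity
    exact (hcont.continuousAt.eventually_lt continuousAt_const this)
  filter_upwards [mem_nhdsWithin_of_mem_nhds hev, self_mem_nhdsWithin] with C hCt hC x
  have hx := ht (mem_univ x)
  simp only [mem_iUnion, Metric.mem_ball, exists_prop] at hx
  obtain ⟨y, hyt, hxy⟩ := hx
  have h1 := abs_sub_le_dist hC x y
  have h2 := abs_sub_le_dist hC₀ y x
  have h3 := hCt y hyt
  have h4 : (n : ℝ) * dist x y ≤ ε / 3 := by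
    have hn : (n : ℝ) ≤ n + 1 := by linarith
    calc (n : ℝ) * dist x y ≤ (n + 1) * (ε / (3 * (n + 1))) := by
          apply mul_le_mul hn hxy.le dist_nonneg (by positivity)
      _ = ε / 3 := by field_simp
  rw [dist_comm y x] at h2
  calc |(C x : ℝ) - C₀ x| = |((C x : ℝ) - C y) + ((C y : ℝ) - C₀ y) + ((C₀ y : ℝ) - C₀ x)| := by
        ring_nf
    _ ≤ |(C x : ℝ) - C y| + |(C y : ℝ) - C₀ y| + |(C₀ y : ℝ) - C₀ x| := abs_add_three _ _ _
    _ ≤ ε := by linarith

/-- The set where `C` agrees with `W`. -/
def agree (C : (Fin n → I) → I) : Set (Fin n → I) := {x | (C x : ℝ) = W x}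

lemma isClosed_near {C : (Fin n → I) → I} (hC : IsCopula C) (ε : ℝ) :
    IsClosed {x : Fin n → I | |(C x : ℝ) - W x| ≤ ε} :=
  isClosed_le ((continuous_copula hC).sub continuous_W).abs continuous_const

lemma isClosed_agree {C : (Fin n → I) → I} (hC : IsCopula C) : IsClosed (agree C) :=
  isClosed_eq (continuous_copula hC) continuous_W

lemma tendsto_near {C : (Fin n → I) → I} (hC : IsCopula C) :
    Tendsto (fun m : ℕ => (volume : Measure (Fin n → I))
      {x : Fin n → I | |(C x : ℝ) - W x| ≤ 1 / ((m : ℝ) + 1)}) atTop (𝓝 (volume (agree C))) := by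
  have h := tendsto_measure_iInter_atTop (μ := (volume : Measure (Fin n → I)))
    (s := fun m : ℕ => {x : Fin n → I | |(C x : ℝ) - W x| ≤ 1 / ((m : ℝ) + 1)})
    (fun m => (isClosed_near hC _).measurableSet.nullMeasurableSet)
    (by
      intro a b hab x hx
      simp only [mem_ofPred_eq] at hx ⊢
      refine hx.trans ?_
      have : (a : ℝ) ≤ b := by exact_mod_cast hab
      apply one_div_le_one_div_of_le (by positivity)
      linarith)
    ⟨0, measure_ne_top _ _⟩
  have e : (⋂ m : ℕ, {x : Fin n → I | |(C x : ℝ) - W x| ≤ 1 / ((m : ℝ) + 1)}) = agree C := by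
    ext x
    simp only [mem_iInter, mem_ofPred_eq, agree]
    constructor
    · intro hx
      have h0 : |(C x : ℝ) - W x| ≤ 0 :=
        ge_of_tendsto' tendsto_one_div_add_atTop_nhds_zero_nat hx
      have := abs_nonpos_iff.1 h0
      linarith
    · intro hx m
      rw [hx, sub_self, abs_zero]
      positivity
  rwa [e] at h

lemma usc_agree : UpperSemicontinuousOn
    (fun C : (Fin n → I) → I => (volume : Measure (Fin n → I)) (agree C))
    {C : (Fin n → I) → I | IsCopula C} := by
  intro C₀ hC₀ r hr
  have h := (tendsto_near hC₀).eventually_lt_const hr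
  obtain ⟨m, hm⟩ := h.exists
  have hpos : (0 : ℝ) < 1 / ((m : ℝ) + 1) := by positivity
  filter_upwards [eventually_close hC₀ hpos] with C hC
  refine lt_of_le_of_lt (measure_mono ?_) hm
  intro x hx
  simp only [agree, mem_ofPred_eq] at hx ⊢
  rw [← hx, abs_sub_comm]
  exact hC x

end compactness

/-! ### The product copula, and `W` is not a copula for `n ≥ 3` -/

section examples

variable {n : ℕ}

/-- The product (independence) copula. -/
def prodCopula (x : Fin n → I) : I := ∏ k, x k

lemma boxVolume_prod (u v : Fin n → I) :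
    boxVolume prodCopula u v = ∏ k, ((v k : ℝ) - u k) := by
  have h := Finset.prod_add (fun k => (v k : ℝ)) (fun k => -(u k : ℝ)) (Finset.univ : Finset (Fin n))
  simp only [← sub_eq_add_neg] at h
  rw [h, boxVolume, Finset.powerset_univ]
  refine Finset.sum_congr rfl fun S _ => ?_
  have h1 : ((prodCopula (fun k => if k ∈ S then v k else u k) : I) : ℝ) =
      (∏ k ∈ S, (v k : ℝ)) * ∏ k ∈ Finset.univ \ S, (u k : ℝ) := by
    have : ((prodCopula (fun k => if k ∈ S then v k else u k) : I) : ℝ) =
        ∏ k, (if k ∈ S then (v k : ℝ) else (u k : ℝ)) := by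
      unfold prodCopula
      rw [show ((∏ k, (if k ∈ S then v k else u k) : I) : ℝ) =
        unitInterval.submonoid.subtype (∏ k, (if k ∈ S then v k else u k)) from rfl, map_prod]
      refine Finset.prod_congr rfl fun k _ => ?_
      by_cases hk : k ∈ S <;> simp [hk]
    rw [this, Finset.prod_ite]
    congr 1
    · exact Finset.prod_congr (by ext; simp) fun _ _ => rfl
    · exact Finset.prod_congr (by ext; simp) fun _ _ => rfl
  rw [h1, Finset.prod_neg, Finset.card_sdiff_of_subset (Finset.subset_univ S)]
  simp only [Finset.card_univ, Fintype.card_fin]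
  ring

lemma isCopula_prod : IsCopula (prodCopula : (Fin n → I) → I) where
  grounded := fun x ⟨k, hk⟩ => Finset.prod_eq_zero (Finset.mem_univ k) hk
  margin := fun x k hx => Finset.prod_eq_single k (fun j _ hj => hx j hj) (by simp)
  nonneg := fun u v huv => by
    rw [boxVolume_prod]
    exact Finset.prod_nonneg fun k _ => sub_nonneg.2 (huv k)

lemma volume_W_neg (hn : 3 ≤ n) (C : (Fin n → I) → I) (hC : ∀ x, (C x : ℝ) = W x) :
    boxVolume C (fun _ => ⟨1 / 2, by norm_num, by norm_num⟩) (fun _ => 1) = 1 - (n : ℝ) / 2 := by
  have h1 : ∀ S : Finset (Fin n), (C (fun k => if k ∈ S then (1 : I) else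
      (⟨1 / 2, by norm_num, by norm_num⟩ : I)) : ℝ) = max (1 - ((n : ℝ) - S.card) / 2) 0 := by
    intro S
    rw [hC, W]
    congr 1
    have : ∀ k, ((if k ∈ S then (1 : I) else (⟨1 / 2, by norm_num, by norm_num⟩ : I) : I) : ℝ) =
        1 / 2 + (if k ∈ S then 1 / 2 else 0) := by
      intro k; by_cases hk : k ∈ S <;> simp [hk]; norm_num
    simp only [this, Finset.sum_add_distrib, Finset.sum_const, Finset.card_univ,
      Fintype.card_fin, Finset.sum_ite_mem, Finset.univ_inter, nsmul_eq_mul]
    ring
  unfold boxVolume
  simp only [h1]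
  have h2 := Finset.sum_powerset_apply_card (x := (Finset.univ : Finset (Fin n)))
    (fun m : ℕ => (-1 : ℝ) ^ (n - m) * max (1 - ((n : ℝ) - m) / 2) 0)
  rw [Finset.powerset_univ] at h2
  rw [h2]
  obtain ⟨m, rfl⟩ : ∃ m, n = m + 1 := ⟨n - 1, by omega⟩
  simp only [Finset.card_univ, Fintype.card_fin]
  rw [Finset.sum_range_succ, Finset.sum_range_succ, Finset.sum_eq_zero]
  · simp only [Nat.choose_self, Nat.sub_self, Nat.choose_succ_self_right,
      show m + 1 - m = 1 by omega]
    push_cast
    rw [max_eq_left (by linarith), max_eq_left (by linarith)]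
    simp only [nsmul_eq_mul]
    push_cast
    ring
  · intro k hk
    have hk' : k + 1 ≤ m := by simpa using hk
    have : (k : ℝ) + 1 ≤ m := by exact_mod_cast hk'
    rw [max_eq_right (by push_cast; linarith)]
    simp

lemma agree_ne_univ (hn : 3 ≤ n) {C : (Fin n → I) → I} (hC : IsCopula C) : agree C ≠ univ := by
  intro h
  have h1 : ∀ x, (C x : ℝ) = W x := fun x => by
    have : x ∈ agree C := h ▸ mem_univ x
    exact this
  have h2 := volume_W_neg hn C h1
  have h3 := hC.nonneg (fun _ => ⟨1 / 2, by norm_num, by norm_num⟩) (fun _ => 1)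
    (fun _ => unitInterval.le_one')
  rw [h2] at h3
  have : (3 : ℝ) ≤ n := by exact_mod_cast hn
  linarith

lemma isOpenPos_I : (volume : Measure I).IsOpenPosMeasure where
  open_pos := by
    intro U hU hne h0
    obtain ⟨V, hV, rfl⟩ := isOpen_induced_iff.1 hU
    obtain ⟨x, hx⟩ := hne
    have hxc : (x : ℝ) ∈ closure (Ioo (0 : ℝ) 1) := by
      rw [closure_Ioo (by norm_num)]; exact x.2
    obtain ⟨y, hyV, hyI⟩ := mem_closure_iff.1 hxc V hV hx
    have hpos : 0 < (volume : Measure ℝ) (V ∩ Ioo 0 1) :=
      (hV.inter isOpen_Ioo).measure_pos _ ⟨y, hyV, hyI⟩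
    rw [unitInterval.volume_apply] at h0
    have hle : (volume : Measure ℝ) (V ∩ Ioo 0 1) ≤
        volume (Subtype.val '' ((Subtype.val : I → ℝ) ⁻¹' V)) := by
      apply measure_mono
      intro z hz
      exact ⟨⟨z, hz.2.1.le, hz.2.2.le⟩, hz.1, rfl⟩
    rw [h0] at hle
    exact absurd hle (not_le.2 hpos)

lemma volume_agree_lt_one (hn : 3 ≤ n) {C : (Fin n → I) → I} (hC : IsCopula C) :
    (volume : Measure (Fin n → I)) (agree C) < 1 := by
  haveI := isOpenPos_I
  have h0 : (volume : Measure (Fin n → I)) univ = 1 := measure_univ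
  refine lt_of_le_of_ne (h0 ▸ measure_mono (subset_univ _)) ?_
  intro h
  have h1 : (volume : Measure (Fin n → I)) (agree C)ᶜ = 0 := by
    rw [measure_compl (isClosed_agree hC).measurableSet (measure_ne_top _ _), h, h0]
    simp
  have h2 : (agree C)ᶜ = ∅ := (isClosed_agree hC).isOpen_compl.measure_eq_zero_iff _ |>.1 h1
  exact agree_ne_univ hn hC (compl_empty_iff.1 h2)

end examples

lemma s_eq (n : ℕ) : s n = ⨆ C ∈ {C : (Fin n → I) → I | IsCopula C},
    (volume : Measure (Fin n → I)) (agree C) := by
  apply le_antisymm
  · refine iSup₂_le fun A hA => ?_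
    obtain ⟨_, C, hC, hAC⟩ := hA
    exact (measure_mono fun x hx => hAC x hx).trans (le_iSup₂ (f := fun C _ =>
      (volume : Measure (Fin n → I)) (agree C)) C hC)
  · refine iSup₂_le fun C hC => ?_
    exact le_iSup₂ (f := fun A (_ : A ∈ {A : Set (Fin n → I) | MeasurableSet A ∧
      ∃ C : (Fin n → I) → I, IsCopula C ∧ ∀ x ∈ A, (C x : ℝ) = W x}) =>
      (volume : Measure (Fin n → I)) A) (agree C)
      ⟨(isClosed_agree hC).measurableSet, C, hC, fun x hx => hx⟩

/-- **Answer to Q2**: for every `n ≥ 3` one has `s_n < 1` and the supremum `s_n` is attained by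
an `n`-copula. -/
theorem result (n : ℕ) (hn : 3 ≤ n) :
    s n < 1 ∧ ∃ C : (Fin n → I) → I, IsCopula C ∧
      (volume : Measure (Fin n → I)) {x | (C x : ℝ) = W x} = s n := by
  obtain ⟨C, hC, hmax⟩ := usc_agree.exists_isMaxOn (s := {C : (Fin n → I) → I | IsCopula C})
    ⟨prodCopula, isCopula_prod⟩ isCompact_copulas
  have hs : (volume : Measure (Fin n → I)) (agree C) = s n := by
    rw [s_eq]
    apply le_antisymm
    · exact le_iSup₂ (f := fun C (_ : C ∈ {C : (Fin n → I) → I | IsCopula C}) =>
        (volume : Measure (Fin n → I)) (agree C)) C hC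
    · exact iSup₂_le fun C' hC' => hmax hC'
  exact ⟨hs ▸ volume_agree_lt_one hn hC, C, hC, hs⟩

end Pool.Agent.Results.MP_2d7e0f_pr.SupAttained
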